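import Pool.Agent.Helper6K1.RegAut.Nilp

set_option autoImplicit false

/-! The intersection of the subgroups `[G, v]`, `v ≠ 1`, is nilpotent when `G` is a finite soluble
group and `V` is an elementary abelian `p`-group acting on `G` with only the identity fixed. -/

namespace Pool.Agent.Results.MP_e56c9f_al.SolubleCase

open Pool.Agent.Helper6K1.RegAut

/-- The statement of the question for soluble `G`: the elementary abelian `p`-group `V` acts on the
finite soluble group `G` without nontrivial fixed points; then the intersection of all `[G, v]` over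
`v ≠ 1` is nilpotent. -/
theorem result :
    ∀ (p : ℕ), p.Prime →
    ∀ (G : Type*) [Group G] [Finite G] [Group.IsSolvable G] (V : Type*) [CommGroup V] [Finite V]
      [MulDistribMulAction V G],
      (∀ v : V, v ^ p = 1) →
      (∀ g : G, (∀ v : V, v • g = g) → g = 1) →
      Group.IsNilpotent
        (↥((⨅ (v : V) (_ : v ≠ 1),
          Subgroup.closure {x : G | ∃ g : G, x = g⁻¹ * (v • g)}) : Subgroup G)) := by
  intro p hp G _ _ _ V _ _ _ hexp hfix
  have : Fact p.Prime := ⟨hp⟩
  let φ : V →* MulAut G := MulDistribMulAction.toMulAut V G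
  let Γ := G ⋊[φ] V
  have hfin : Finite Γ := Finite.of_equiv _ SemidirectProduct.equivProd.symm
  let ι : G →* Γ := SemidirectProduct.inl
  let κ : V →* Γ := SemidirectProduct.inr
  have hι : Function.Injective ι := SemidirectProduct.inl_injective
  have hκ : Function.Injective κ := SemidirectProduct.inr_injective
  have hconj : ∀ (v : V) (g : G), κ v * ι g * (κ v)⁻¹ = ι (v • g) := by
    intro v g
    have h1 := SemidirectProduct.inl_aut (φ := φ) v g
    rw [map_inv] at h1
    exact h1.symm
  have hgrp : Grp p ι.range κ.range :=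
    { normal := by
        show (SemidirectProduct.inl : G →* G ⋊[φ] V).range.Normal
        rw [SemidirectProduct.range_inl_eq_ker_rightHom]
        infer_instance
      sol := Group.isSolvable_of_surjective ι.rangeRestrict_surjective
      comm := by
        rintro _ ⟨s, rfl⟩ _ ⟨t, rfl⟩
        rw [← map_mul, ← map_mul, mul_comm]
      exp := by
        rintro _ ⟨t, rfl⟩
        rw [← map_pow, hexp, map_one]
      sup := by
        rw [eq_top_iff]
        intro x _
        have h1 := SemidirectProduct.inl_left_mul_inr_right x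
        rw [← h1]
        exact mul_mem (Subgroup.mem_sup_left ⟨_, rfl⟩) (Subgroup.mem_sup_right ⟨_, rfl⟩)
      cent := by
        rintro _ ⟨g, rfl⟩ h1
        rw [hfix g (fun v => hι (by rw [← hconj]; exact h1 _ ⟨v, rfl⟩)), map_one] }
  obtain ⟨H, hH⟩ : ∃ H : Subgroup G, H = ⨅ (v : V) (_ : v ≠ 1),
    Subgroup.closure {x : G | ∃ g : G, x = g⁻¹ * (v • g)} := ⟨_, rfl⟩
  rw [← hH]
  have h1 : Group.IsNilpotent (H.map ι) := by
    refine nilpotent_aux (p := p) (Nat.card Γ) ι.range κ.range le_rfl hgrp (H.map ι) ?_ ?_
    · exact Subgroup.map_le_range ι H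
    · rintro _ ⟨v, rfl⟩ hv
      have hv1 : v ≠ 1 := fun h => hv (by rw [h, map_one])
      have h2 : H ≤ Subgroup.closure {x : G | ∃ g : G, x = g⁻¹ * (v • g)} := by
        rw [hH]
        exact iInf₂_le v hv1
      refine (Subgroup.map_mono h2).trans ?_
      rw [MonoidHom.map_closure, cX, Subgroup.closure_le]
      rintro _ ⟨_, ⟨g, rfl⟩, rfl⟩
      refine Subgroup.subset_closure ⟨ι g, ⟨g, rfl⟩, ?_⟩
      rw [hconj, map_mul, map_inv]
  exact Group.nilpotent_of_mulEquiv (H.equivMapOfInjective ι hι).symm

end Pool.Agent.Results.MP_e56c9f_al.SolubleCase
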